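import Pool.Agent.MP_bac99f_ag.H70.Smooth

/-- Over every field `k` of characteristic different from `2` (for instance `ℂ`) and for every
`d ≥ 4` there is a smooth `k`-algebra `R` of finite type that is a regular domain of Krull
dimension `d`, with a finitely generated projective module of rank `d - 2` that is stably free
and not free. -/
theorem Pool.Agent.Results.MP_bac99f_ag.SmoothAllDims.result
    (k : Type) [Field k] (h2 : (2 : k) ≠ 0) (d : ℕ) (hd : 4 ≤ d) :
    ∃ (R : Type) (_ : CommRing R) (_ : Algebra k R),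
      Algebra.Smooth k R ∧ Algebra.FiniteType k R ∧ IsRegularRing R ∧ IsDomain R ∧
      ringKrullDim R = d ∧
      ∃ (P : Type) (_ : AddCommGroup P) (_ : Module R P),
        Module.Finite R P ∧ Module.Projective R P ∧
        (∀ p : PrimeSpectrum R, Module.rankAtStalk P p = d - 2) ∧
        (∃ m n : ℕ, Nonempty ((P × (Fin m → R)) ≃ₗ[R] (Fin n → R))) ∧ ¬ Module.Free R P := by
  obtain ⟨m, rfl⟩ : ∃ m, d = m + 2 := ⟨d - 2, by omega⟩
  obtain ⟨R, _, _, h1, h3, h4, h5, P, _, _, h6, h7, h8, h9, h10⟩ :=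
    Pool.Agent.MP_bac99f_ag.H70.exists_module k h2 m (by omega)
  exact ⟨R, _, _, h1, inferInstance, h3, h4, h5, P, _, _, h6, h7, h8, ⟨_, _, h9⟩, h10⟩
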